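import Pool.Agent.Lib.H87.HopfKC.Cert.Def

/-!
# Checker for the slices of the Einstein certificate: definitions
-/

namespace EinsteinSix.Sl

open HopfKC

/-- Sorted coefficients of the auxiliary cubic from a tree. -/
noncomputable def f3w (T : Tr ℕ) (k i j : ℕ) : ℤ :=
  lkf 300 (Nat.shiftLeft 1 290) j 10 (Tr.get T (Nat.add (Nat.mul 76 k) i))

/-- Symmetric coefficients of the auxiliary cubic. -/
noncomputable def fhw (T : Tr ℕ) (k i j : ℕ) : ℤ :=
  bif Nat.ble k i then
    (bif Nat.ble i j then f3w T k i j else bif Nat.ble k j then f3w T k j i else f3w T j k i)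
  else (bif Nat.ble k j then f3w T i k j else bif Nat.ble i j then f3w T i j k else f3w T j i k)

/-- Casimir, diagonal part. -/
noncomputable def ccw (f : ℕ → ℕ → ℕ → ℤ) (k i j : ℕ) : ℤ :=
  lsum (Tr.get ctT k) fun e => Int.mul e.2 (f e.1 i j)

/-- Product of two derivations for one plane. -/
noncomputable def ddw (f : ℕ → ℕ → ℕ → ℤ) (a b : List (ℕ × ℤ)) (j : ℕ) : ℤ :=
  lsum a fun e => lsum b fun e' => Int.mul (Int.mul e.2 e'.2) (f e.1 e'.1 j)

/-- Casimir, mixed part. -/
noncomputable def xxw (f : ℕ → ℕ → ℕ → ℤ) (k i j : ℕ) : ℤ :=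
  isum (List.zipWith (fun a b => ddw f a b j) (Tr.get xtT k) (Tr.get xtT i))

/-- Packed row `k` of a packed table. -/
noncomputable def rw1 (r k : ℕ) : ℕ :=
  Nat.mod (Nat.shiftRight r (Nat.mul 1620 k)) (Nat.shiftLeft 1 1620)

/-- Packed row `k` of type `t`. -/
noncomputable def rwg (rows : List ℕ) (t k : ℕ) : ℕ := rw1 (List.getD rows t 0) k

/-- Tensor of a positive term. -/
noncomputable def kpw (rows : List ℕ) (t W k i j : ℕ) : ℤ :=
  bif Nat.beq (col W i) 0 then .ofNat 0 else bif Nat.beq (col W j) 0 then .ofNat 0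
    else kap (rwg rows t k) (col W i) (col W j)

/-- Sum of the symmetrised positive terms. -/
noncomputable def ktw (rows : List ℕ) (tms : List (ℕ × ℕ × ℕ)) (k i j : ℕ) : ℤ :=
  lsum tms fun t => Int.mul (.ofNat t.2.1) (s6 (kpw rows t.1 t.2.2) k i j)

/-- The symmetrised coefficient of the final identity. -/
noncomputable def Zw (N : ℕ) (e f : ℕ → ℕ → ℕ → ℤ) (rows : List ℕ) (tms : List (ℕ × ℕ × ℕ))
    (k i j : ℕ) : ℤ :=
  Int.sub (Int.add (Int.mul (Int.ofNat N) (s6 e k i j))
    (Int.mul (.ofNat 4) (Int.add (Int.add (Int.add (ccw f k i j) (ccw f i k j)) (ccw f j k i))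
      (Int.mul (.ofNat 2) (Int.add (Int.add (xxw f k i j) (xxw f k j i)) (xxw f i j k))))))
    (Int.mul (.ofNat 2) (ktw rows tms k i j))

/-- Check of all coefficients with smallest index `k`. -/
noncomputable def roww (N : ℕ) (e f : ℕ → ℕ → ℕ → ℤ) (rows : List ℕ) (tms : List (ℕ × ℕ × ℕ))
    (k : ℕ) : Bool :=
  I76.all fun i => bif Nat.ble k i then
    (Tr.get clsT (Nat.xor (mk k) (mk i))).all fun j =>
      bif Nat.ble i j then isz (Zw N e f rows tms k i j) else true
  else true

/-- All monomials of the auxiliary cubic with smallest index `k` are sign invariant. -/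
noncomputable def ckFw (T : Tr ℕ) (k : ℕ) : Bool :=
  I76.all fun i => bif Nat.ble k i then I76.all fun j =>
    bif Nat.ble i j then
      bif Nat.beq (Nat.xor (Nat.xor (mk k) (mk i)) (mk j)) 0 then true else isz (f3w T k i j)
    else true else true

end EinsteinSix.Sl
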