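import Pool.Agent.Lib.EinsteinSix.Sl.Core
import Pool.Agent.Lib.H87.HopfKC.Cert.GenSum
import Pool.Agent.Lib.H79.HopfTerms

/-!
# Checker for the slices of the Einstein certificate: soundness
-/

open Finset H91.Split

namespace EinsteinSix.Sl

open HopfKC HopfKC.Gs

theorem ble_dec (a b : ℕ) : Nat.ble a b = decide (a ≤ b) := by
  rw [Bool.eq_iff_iff, decide_eq_true_iff]
  exact ⟨Nat.le_of_ble_eq_true, Nat.ble_eq_true_of_le⟩

theorem fhw_symm23 (T : Tr ℕ) (k i j : ℕ) : fhw T k j i = fhw T k i j := by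
  simp only [fhw, ble_dec]
  by_cases h1 : k ≤ i <;> by_cases h2 : i ≤ j <;> by_cases h3 : k ≤ j <;> by_cases h4 : j ≤ i <;>
    simp only [h1, h2, h3, h4, decide_true, decide_false, cond_true, cond_false] <;>
    first
    | rfl
    | (exfalso; omega)
    | (have h5 : i = j := by omega
       subst h5; rfl)

theorem fhw_symm12 (T : Tr ℕ) (k i j : ℕ) : fhw T i k j = fhw T k i j := by
  simp only [fhw, ble_dec]
  by_cases h1 : k ≤ i <;> by_cases h2 : i ≤ j <;> by_cases h3 : k ≤ j <;> by_cases h4 : i ≤ k <;>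
    simp only [h1, h2, h3, h4, decide_true, decide_false, cond_true, cond_false] <;>
    first
    | rfl
    | (exfalso; omega)
    | (have h5 : i = k := by omega
       subst h5; rfl)

theorem fhw_sorted (T : Tr ℕ) {k i j : ℕ} (h1 : k ≤ i) (h2 : i ≤ j) : fhw T k i j = f3w T k i j := by
  unfold fhw
  rw [show Nat.ble k i = true from Nat.ble_eq_true_of_le h1,
    show Nat.ble i j = true from Nat.ble_eq_true_of_le h2, cond_true, cond_true]

theorem mk_eq : ∀ k < 76, HopfKC.mk k = mask k := by decide +kernel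

theorem cls_mem : ∀ j < 76, j ∈ Tr.get clsT (HopfKC.mk j) := by decide +kernel

theorem f3w_mask {T : Tr ℕ} (hT : I76.all (ckFw T) = true) {k i j : ℕ} (h1 : k ≤ i) (h2 : i ≤ j)
    (h3 : j < 76) (hf : f3w T k i j ≠ 0) : mask k ^^^ mask i ^^^ mask j = 0 := by
  have hr := List.all_eq_true.1 hT k (I76_mem k (by omega))
  unfold ckFw at hr
  have h4 := List.all_eq_true.1 hr i (I76_mem i (by omega))
  rw [show Nat.ble k i = true from Nat.ble_eq_true_of_le h1, cond_true] at h4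
  have h6 := List.all_eq_true.1 h4 j (I76_mem j h3)
  rw [show Nat.ble i j = true from Nat.ble_eq_true_of_le h2, cond_true] at h6
  rw [mk_eq k (by omega), mk_eq i (by omega), mk_eq j h3] at h6
  by_contra hne
  have h7 : Nat.beq (Nat.xor (Nat.xor (mask k) (mask i)) (mask j)) 0 = false := by
    rw [← Bool.not_eq_true]
    intro h
    exact hne ((beq_iff _ _).1 h)
  rw [h7, cond_false] at h6
  exact hf ((isz_iff _).1 h6)

theorem fhw_mask {T : Tr ℕ} (hT : I76.all (ckFw T) = true) : ∀ k < 76, ∀ i < 76, ∀ j < 76,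
    fhw T k i j ≠ 0 → mask k ^^^ mask i ^^^ mask j = 0 := by
  intro k hk i hi j hj hf
  have s12 : ∀ a b c, fhw T b a c = fhw T a b c := fun a b c => fhw_symm12 T a b c
  have s23 : ∀ a b c, fhw T a c b = fhw T a b c := fun a b c => fhw_symm23 T a b c
  have H : ∀ a b c, a ≤ b → b ≤ c → c < 76 → fhw T a b c ≠ 0 →
      mask a ^^^ mask b ^^^ mask c = 0 := by
    intro a b c h1 h2 h3 h4
    rw [fhw_sorted T h1 h2] at h4
    exact f3w_mask hT h1 h2 h3 h4
  have x12 : ∀ a b c : ℕ, b ^^^ a ^^^ c = a ^^^ b ^^^ c := fun a b c => by rw [Nat.xor_comm b a]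
  have x23 : ∀ a b c : ℕ, a ^^^ c ^^^ b = a ^^^ b ^^^ c := fun a b c => by
    rw [Nat.xor_assoc, Nat.xor_comm c b, ← Nat.xor_assoc]
  rcases le_total k i with h1 | h1 <;> rcases le_total i j with h2 | h2 <;>
    rcases le_total k j with h3 | h3
  · exact H _ _ _ h1 h2 hj hf
  · exact H _ _ _ h1 h2 hj hf
  · have := H k j i h3 h2 hi (by rwa [s23])
    rwa [x23] at this
  · have := H j k i h3 h1 hi (by rwa [s12, s23])
    rwa [x12, x23] at this
  · have := H i k j h1 h3 hj (by rwa [s12])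
    rwa [x12] at this
  · have := H i j k h2 h3 hk (by rwa [s23, s12])
    rwa [x23, x12] at this
  · have := H j i k h2 h1 hk (by rwa [s12, s23, s12])
    rwa [x12, x23, x12] at this
  · have := H j i k h2 h1 hk (by rwa [s12, s23, s12])
    rwa [x12, x23, x12] at this

/-- Sum of the tensors of the positive terms. -/
noncomputable def KKw (rows : List ℕ) (l : List (ℕ × ℕ × ℕ)) (k i j : ℕ) : ℤ :=
  (l.map fun t => (t.2.1 : ℤ) * kpg (rwg rows t.1) t.2.2 k i j).sum

theorem KKw_cons (rows : List ℕ) (t : ℕ × ℕ × ℕ) (l : List (ℕ × ℕ × ℕ)) (k i j : ℕ) :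
    KKw rows (t :: l) k i j = (t.2.1 : ℤ) * kpg (rwg rows t.1) t.2.2 k i j + KKw rows l k i j := rfl

theorem lsum_KKw (rows : List ℕ) (l : List (ℕ × ℕ × ℕ)) (k i j : ℕ) :
    ktw rows l k i j = s6i (KKw rows l) k i j := by
  induction l with
  | nil => simp [ktw, lsum_nil, KKw, s6i]
  | cons t l ih =>
    have e0 : ktw rows (t :: l) k i j =
        Int.mul (.ofNat t.2.1) (s6 (kpw rows t.1 t.2.2) k i j) + ktw rows l k i j := rfl
    rw [e0, ih]
    unfold s6i
    simp only [KKw_cons]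
    have e : Int.mul (.ofNat t.2.1) (s6 (kpw rows t.1 t.2.2) k i j) = (t.2.1 : ℤ) *
        (kpg (rwg rows t.1) t.2.2 k i j + kpg (rwg rows t.1) t.2.2 k j i +
          (kpg (rwg rows t.1) t.2.2 i k j + kpg (rwg rows t.1) t.2.2 i j k) +
          (kpg (rwg rows t.1) t.2.2 j k i + kpg (rwg rows t.1) t.2.2 j i k)) := rfl
    rw [e]
    ring

theorem xor_eq_zero' {a b c : ℕ} (h : a ^^^ b ^^^ c = 0) : a ^^^ b = c := by
  have h1 : (a ^^^ b ^^^ c) ^^^ c = 0 ^^^ c := by rw [h]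
  rwa [Nat.xor_assoc, Nat.xor_self, Nat.xor_zero, Nat.zero_xor] at h1

theorem Zw_zero {N : ℕ} {e f : ℕ → ℕ → ℕ → ℤ} {rows : List ℕ} {tms : List (ℕ × ℕ × ℕ)}
    (hrow : ∀ k < 76, roww N e f rows tms k = true) {k i j : ℕ} (h1 : k ≤ i) (h2 : i ≤ j)
    (h3 : j < 76) (hm : mask k ^^^ mask i ^^^ mask j = 0) : Zw N e f rows tms k i j = 0 := by
  have hr := hrow k (by omega)
  unfold roww at hr
  have h4 := List.all_eq_true.1 hr i (I76_mem i (by omega))
  have h5 : Nat.xor (HopfKC.mk k) (HopfKC.mk i) = HopfKC.mk j := by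
    rw [mk_eq k (by omega), mk_eq i (by omega), mk_eq j h3]
    exact xor_eq_zero' hm
  rw [show Nat.ble k i = true from Nat.ble_eq_true_of_le h1, cond_true, h5] at h4
  have h6 := List.all_eq_true.1 h4 j (cls_mem j h3)
  rw [show Nat.ble i j = true from Nat.ble_eq_true_of_le h2, cond_true] at h6
  exact (isz_iff _).1 h6

theorem trT_dg {S : T6} (h : AdmE S) (D : ℕ) : trT (H91.Split.rot (dg D) S) = trT S := by
  have h1 := ell_trT h.lin
  have h2 := ell_trT (h.rot (dg_blk D) (dg_orth D)).lin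
  have h3 := ell_rot_blk h.alg (dg_blk D) (dg_orth D)
  rw [h1, h2] at h3
  linarith

/-- **Soundness of a slice certificate.** -/
theorem slice_main {N : ℕ} {e : ℕ → ℕ → ℕ → ℤ} {T : Tr ℕ} {rows : List ℕ}
    {tms : List (ℕ × ℕ × ℕ)} (hrow : ∀ k < 76, roww N e (fhw T) rows tms k = true)
    (hT : I76.all (ckFw T) = true) {S : T6} (h : AdmE S)
    (hmax : ∀ g : M6, IsBlk g → g.transpose * g = 1 →
      P (fun k i j => (fhw T k i j : ℝ)) 76 (vq qd (H91.Split.rot g S)) ≤
        P (fun k i j => (fhw T k i j : ℝ)) 76 (vq qd S))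
    (hpos : ∀ D : ℕ, ∀ t ∈ tms,
      0 ≤ V (kpg (rwg rows t.1) t.2.2) (cv 1 (H91.Split.rot (dg D) S)))
    {t₀ : ℕ × ℕ × ℕ} (h0 : t₀ ∈ tms)
    (hv : ∀ D : ℕ, V (kpg (rwg rows t₀.1) t₀.2.2) (cv 1 (H91.Split.rot (dg D) S)) = trT S)
    {c : ℝ} (he : ∀ D : ℕ, V e (cv 1 (H91.Split.rot (dg D) S)) = c) :
    2 * (t₀.2.1 : ℝ) * trT S ≤ (N : ℝ) * c := by
  have hg := generic (N := (N : ℤ)) (e := e) (f := fhw T) (K := KKw rows tms)
    (fhw_symm12 T) (fhw_symm23 T) (fhw_mask hT) (fun k i j h1 h2 h3 hm => by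
      have hz := Zw_zero hrow h1 h2 h3 hm
      have e1 : Zw N e (fhw T) rows tms k i j = (N : ℤ) * s6i e k i j +
        4 * (ccg (fhw T) k i j + ccg (fhw T) i k j + ccg (fhw T) j k i +
        2 * (xxg (fhw T) k i j + xxg (fhw T) k j i + xxg (fhw T) i j k)) -
        2 * ktw rows tms k i j := rfl
      rw [e1, lsum_KKw] at hz
      exact hz)
    (fun D => (h.rot (dg_blk D) (dg_orth D)).lin) hmax
  have h2 : (0 : ℝ) ≤ ∑ D ∈ range 64, ((N : ℝ) * c - 2 * ((t₀.2.1 : ℝ) * trT S)) := by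
    refine le_trans hg (Finset.sum_le_sum fun D _ => ?_)
    rw [he D]
    have h3 : V (KKw rows tms) (cv 1 (H91.Split.rot (dg D) S)) =
        (tms.map fun t => (((t.2.1 : ℕ) : ℤ) : ℝ) * V (kpg (rwg rows t.1) t.2.2)
          (cv 1 (H91.Split.rot (dg D) S))).sum :=
      V_list tms (fun t => (t.2.1 : ℤ)) (fun t => kpg (rwg rows t.1) t.2.2) _
    have h4 : (t₀.2.1 : ℝ) * trT S ≤ V (KKw rows tms) (cv 1 (H91.Split.rot (dg D) S)) := by
      rw [h3, ← hv D]
      refine List.single_le_sum ?_ _ (List.mem_map.2 ⟨t₀, h0, by push_cast; rfl⟩)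
      intro x hx
      obtain ⟨t, ht, rfl⟩ := List.mem_map.1 hx
      exact mul_nonneg (by positivity) (hpos D t ht)
    push_cast
    linarith
  rw [Finset.sum_const, Finset.card_range, nsmul_eq_mul] at h2
  have h3 : (0 : ℝ) ≤ (N : ℝ) * c - 2 * ((t₀.2.1 : ℝ) * trT S) :=
    nonneg_of_mul_nonneg_right h2 (by norm_num)
  linarith

/-- Value of the slack term. -/
theorem V_slack {S : T6} (h : AdmE S) {r : ℕ → ℕ}
    (hr : NT.ckG r 1 (fun _ _ => NT.sliceL 0 1) = true) {W : ℕ} (hW : NT.ckR 1 W = true)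
    (hw : (I76.all fun i => bif Nat.beq i 0 then (en (col W i)) == [(0, 1, 0)]
      else (en (col W i)) == []) = true) :
    V (kpg r W) (cv 1 S) = trT S := by
  have e0 : en (col W 0) = [(0, 1, 0)] := by
    have h1 := List.all_eq_true.1 hw 0 (I76_mem 0 (by norm_num))
    rw [show Nat.beq 0 0 = true from rfl, cond_true] at h1
    exact eq_of_beq h1
  have e1 : ∀ i < 76, i ≠ 0 → en (col W i) = [] := by
    intro i hi h0
    have h1 := List.all_eq_true.1 hw i (I76_mem i hi)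
    have h7 : Nat.beq i 0 = false := by
      rw [← Bool.not_eq_true]
      intro h8
      exact h0 ((beq_iff _ _).1 h8)
    rw [h7, cond_false] at h1
    exact eq_of_beq h1
  have e2 : wv W (cv 1 S) 0 = 1 := by
    unfold wv
    rw [Finset.sum_eq_single 0]
    · have : cv 1 S 0 = 1 := by simp [cv]
      rw [this]
      unfold xc
      rw [e0]
      simp [vl]
    · intro i hi h0
      unfold xc
      rw [e1 i (Finset.mem_range.1 hi) h0]
      simp
    · intro h0
      exact absurd (Finset.mem_range.2 (by norm_num)) h0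
  have h1 := NT.kpg_real hr hW (cv 1 S)
  have h2 : V (kpg r W) (cv 1 S) = ∑ k ∈ range 76, ∑ i ∈ range 76, ∑ j ∈ range 76,
    ((kpg r W k i j : ℤ) : ℝ) * (cv 1 S k * cv 1 S i * cv 1 S j) := rfl
  rw [h2, h1]
  unfold NT.QF
  simp only [Finset.sum_range_one, NT.lev_slice h.alg, e2]
  simp

end EinsteinSix.Sl
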