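import Pool.Agent.Lib.EinsteinSix.Sl.Rows
import Pool.Agent.Lib.EinsteinSix.Sl.Sound

/-!
# Checks of the packed rows of the global optimality form
-/

set_option maxRecDepth 100000

namespace EinsteinSix.Sl

open HopfKC HopfKC.NT

theorem ok_PL : ckG (rw1 rowPL) 6
    (fun b d => plL ![1, 0, 0, 0, 0, 0] ![0, 1, 0, 0, 1, 0] (fi b) (fi d)) = true := by
  decide +kernel

theorem ok_PM : ckG (rw1 rowPM) 6
    (fun b d => plL ![0, 0, 0, 1, 0, 0] ![0, 1, 0, 0, 1, 0] (fi b) (fi d)) = true := by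
  decide +kernel

end EinsteinSix.Sl
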