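import Pool.Agent.Lib.EinsteinSix.Sl.RowsOk
import Pool.Agent.Lib.EinsteinSix.Sl.RowsPL

/-!
# Positivity of the terms common to all slices
-/

open Finset H91.Split

namespace EinsteinSix.Sl

open HopfKC HopfKC.NT HopfKC.Gs

/-- Common packed rows followed by the rows of the slice. -/
def allRows (extra : List ℕ) : List ℕ :=
  [rowJ1, rowJ4, rowJ21, rowJ12, rowQ, rowS0, rowPL, rowPM] ++ extra

/-- Check of the packed matrix of a term. -/
noncomputable def tyOK (t : ℕ × ℕ × ℕ) : Bool :=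
  bif Nat.ble t.1 3 then ckR 6 t.2.2 else
  bif Nat.beq t.1 4 then ckR 9 t.2.2 else
  bif Nat.beq t.1 6 then (ckR 6 t.2.2 && ckO ![1, 0, 0, 0, 0, 0] t.2.2 &&
    ckO ![0, 1, 0, 0, 1, 0] t.2.2) else
  bif Nat.beq t.1 7 then (ckR 6 t.2.2 && ckO ![0, 0, 0, 1, 0, 0] t.2.2 &&
    ckO ![0, 1, 0, 0, 1, 0] t.2.2) else ckR 1 t.2.2

theorem sec_basis {S : T6} (h : SecNonneg S) (p q : Fin 6) : 0 ≤ S p q p q := by
  have h1 := h (fun i => if i = p then 1 else 0) (fun i => if i = q then 1 else 0)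
  simpa [Finset.sum_ite_eq', mul_ite] using h1

theorem trT_nonneg_of {S : T6} (h : AdmE S) : 0 ≤ trT S := by
  unfold trT
  exact Finset.sum_nonneg fun i _ => Finset.sum_nonneg fun j _ => sec_basis h.sec _ _

/-- Positivity of the terms of the common types. -/
theorem pos_common (extra : List ℕ) {S : T6} (h : AdmE S) {a d W : ℕ} (ha : a < 8)
    (hok : tyOK (a, d, W) = true) : 0 ≤ V (kpg (rwg (allRows extra) a) W) (cv 1 S) := by
  have hJ : ∀ (r : ℕ) (x : Fin 6 → ℤ), ckG (rw1 r) 6 (fun b d => kfL x (fi b) (fi d)) = true →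
      ckR 6 W = true → 0 ≤ V (kpg (rw1 r) W) (cv 1 S) := fun r x h1 h2 => sec_nonneg h x h1 h2
  interval_cases a
  · exact hJ rowJ1 _ ok_J1 hok
  · exact hJ rowJ4 _ ok_J4 hok
  · exact hJ rowJ21 _ ok_J21 hok
  · exact hJ rowJ12 _ ok_J12 hok
  · exact q_nonneg h.best ok_Q hok
  · refine slice_nonneg (α := 0) (β := 1) h.alg ok_S0 hok ?_
    have h1 : 0 ≤ trT S := by
      have := trT_nonneg_of h
      exact this
    push_cast
    linarith
  · have h1 : (ckR 6 W && ckO ![1, 0, 0, 0, 0, 0] W && ckO ![0, 1, 0, 0, 1, 0] W) = true := hok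
    rw [Bool.and_eq_true, Bool.and_eq_true] at h1
    exact pl_nonneg h _ _ (by decide) ok_PL h1.1.1 h1.1.2 h1.2
  · have h1 : (ckR 6 W && ckO ![0, 0, 0, 1, 0, 0] W && ckO ![0, 1, 0, 0, 1, 0] W) = true := hok
    rw [Bool.and_eq_true, Bool.and_eq_true] at h1
    exact pl_nonneg h _ _ (by decide) ok_PM h1.1.1 h1.1.2 h1.2

end EinsteinSix.Sl
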