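import Pool.Agent.Lib.EinsteinSix.Sl.Rows
import Pool.Agent.Lib.EinsteinSix.Sl.Sound

/-!
# Checks of the packed rows common to all slices
-/

set_option maxRecDepth 100000

namespace EinsteinSix.Sl

open HopfKC HopfKC.NT

theorem ok_J1 : ckG (rw1 rowJ1) 6 (fun b d => kfL ![1, 0, 0, 0, 0, 0] (fi b) (fi d)) = true := by
  decide +kernel

theorem ok_J4 : ckG (rw1 rowJ4) 6 (fun b d => kfL ![0, 0, 0, 1, 0, 0] (fi b) (fi d)) = true := by
  decide +kernel

theorem ok_J21 : ckG (rw1 rowJ21) 6 (fun b d => kfL ![2, 0, 0, 1, 0, 0] (fi b) (fi d)) = true := by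
  decide +kernel

theorem ok_J12 : ckG (rw1 rowJ12) 6 (fun b d => kfL ![1, 0, 0, 2, 0, 0] (fi b) (fi d)) = true := by
  decide +kernel

theorem ok_Q : ckG (rw1 rowQ) 9 T3.qent = true := by decide +kernel

theorem ok_S0 : ckG (rw1 rowS0) 1 (fun _ _ => sliceL 0 1) = true := by decide +kernel

end EinsteinSix.Sl
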